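import Pool.Agent.KS6_60.UB.Memb

/-!
# Unit ball graphs in space forms: prescribed radii

For a space `X` with metric `δ` and `r > 0`, `UnitBall δ r a` says that the graph `a` has centres
`c v ∈ X` such that distinct `u, v` are adjacent iff `δ (c u) (c v) ≤ 2 r`.  The spaces are
`EuclideanSpace ℝ (Fin d)` with its metric `edist'`, hyperbolic space `Hyp d` of curvature `-1`
(hyperboloid model) with `hdist`, and the unit sphere `Sph d` of `ℝ^(d+1)` with the angular metric
`sdist`.  `ETR`, `Fm` (quantifier-free formulas), `Red` (polynomial-time many-one reductions) and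
`Gr` (graphs as inputs) are those of the library.
-/

namespace Pool.Agent.Results.MP_485bb6_lc.SpaceForms

open Pool.Agent.KS6_60.Lib.CX Pool.Agent.KS6_60.Lib.ER Pool.Agent.KS6_60.Lib.SG Pool.Agent.KS6_60.UB

/-- every decision problem in `∃ℝ` reduces to `B` -/
def ERHard {β : Type} [Enc β] (B : β → Prop) : Prop :=
  ∀ (α : Type) [Enc α] (A : α → Prop), Red A ETR → Red A B

/-- `B` is `∃ℝ`-complete -/
def ERComplete {β : Type} [Enc β] (B : β → Prop) : Prop := Red B ETR ∧ ERHard B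

/-- `a` is a unit ball graph of Euclidean `d`-space, of hyperbolic `d`-space for every radius `r > 0`,
and of the `d`-sphere for every radius `0 < r < π / 3` -/
def InAll (d : ℕ) (a : Gr) : Prop :=
  (∀ r : ℝ, 0 < r → UnitBall (edist' (d := d)) r a) ∧ (∀ r : ℝ, 0 < r → UnitBall (hdist (d := d)) r a) ∧
    ∀ r : ℝ, 0 < r → r < Real.pi / 3 → UnitBall (sdist (d := d)) r a

/-- `a` is a unit ball graph of Euclidean `d`-space, or of hyperbolic `d`-space for some radius
`r > 0`, or of the `d`-sphere for some radius `0 < r < π / 2` -/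
def InSome (d : ℕ) (a : Gr) : Prop :=
  (∃ r : ℝ, 0 < r ∧ UnitBall (edist' (d := d)) r a) ∨ (∃ r : ℝ, 0 < r ∧ UnitBall (hdist (d := d)) r a) ∨
    ∃ r : ℝ, 0 < r ∧ r < Real.pi / 2 ∧ UnitBall (sdist (d := d)) r a

theorem ERHard.of_red {β : Type} [Enc β] {B : β → Prop} (h : Red ETR B) : ERHard B := by
  obtain ⟨g, hg, h⟩ := h
  exact fun α _ A ⟨f, hf, h'⟩ => ⟨fun a => g (f a), hg.comp hf, fun a => (h' a).trans (h _)⟩

theorem sandwich (d : ℕ) (hd : 2 ≤ d) (𝒞 : Gr → Prop) (h1 : ∀ a, InAll d a → 𝒞 a) (h2 : ∀ a, 𝒞 a → InSome d a) :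
    ERHard 𝒞 := by
  obtain ⟨m, rfl⟩ : ∃ m, d = m + 2 := ⟨d - 2, by omega⟩
  obtain ⟨N, _, _, h⟩ := Pool.Agent.KS6_60.Lib.SG.hard m
  classical
  refine ERHard.of_red (h _ _ _ pt_red (fun I hI => h1 _ ⟨fun r hr => complete_euc hr I hI,
    fun r hr => complete_hyp hr I hI, fun r hr hr' => complete_sph hr hr' I hI⟩) fun I hI => ?_)
  rcases h2 _ hI with ⟨r, hr, k⟩ | ⟨r, hr, k⟩ | ⟨r, hr, hr', k⟩
  · exact sound_euc hr I k
  · exact sound_hyp hr I k
  · exact sound_sph hr hr' I k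

/-- **Unit ball graph recognition in space forms, for every dimension `d ≥ 2`.**
(1) Recognising unit ball graphs in `ℍ^d` (the radius is part of the realisation) is `∃ℝ`-complete.
(2) Every class of graphs which contains the graphs that are unit ball graphs in all three
geometries for all radii, and is contained in the class of graphs that are unit ball graphs in one
of the geometries for some radius, is `∃ℝ`-hard to recognise.
(3) For `ℍ^d` and every nonempty set of radii described by a quantifier-free formula in `cosh 2r`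
(for example a single radius with `cosh 2r` rational or algebraic), recognising the graphs with a
representation by balls of a common radius from that set is `∃ℝ`-complete.
(4) The same for the sphere `S^d` with radii `0 < r < π / 2`, described by a formula in `cos 2r`,
provided the set contains a radius below `π / 3`.
(5) The same for `ℝ^d` and every radius. -/
theorem result (d : ℕ) (hd : 2 ≤ d) :
    (ERComplete fun a : Gr => ∃ r : ℝ, 0 < r ∧ UnitBall (hdist (d := d)) r a) ∧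
    (∀ 𝒞 : Gr → Prop, (∀ a, InAll d a → 𝒞 a) → (∀ a, 𝒞 a → InSome d a) → ERHard 𝒞) ∧
    (∀ χ : Fm, (∃ r : ℝ, 0 < r ∧ χ.Holds fun _ => Real.cosh (2 * r)) →
      ERComplete fun a : Gr => ∃ r : ℝ, 0 < r ∧ (χ.Holds fun _ => Real.cosh (2 * r)) ∧
        UnitBall (hdist (d := d)) r a) ∧
    (∀ χ : Fm, (∃ r : ℝ, 0 < r ∧ r < Real.pi / 3 ∧ χ.Holds fun _ => Real.cos (2 * r)) →
      ERComplete fun a : Gr => ∃ r : ℝ, 0 < r ∧ r < Real.pi / 2 ∧ (χ.Holds fun _ => Real.cos (2 * r)) ∧
        UnitBall (sdist (d := d)) r a) ∧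
    ∀ r : ℝ, 0 < r → ERComplete (UnitBall (edist' (d := d)) r) := by
  have s := sandwich d hd
  have hyp : ∀ χ : Fm, (∃ r : ℝ, 0 < r ∧ χ.Holds fun _ => Real.cosh (2 * r)) →
      ERComplete fun a : Gr => ∃ r : ℝ, 0 < r ∧ (χ.Holds fun _ => Real.cosh (2 * r)) ∧
        UnitBall (hdist (d := d)) r a := fun χ ⟨r, hr, h⟩ => ⟨memb_hyp d χ,
    s _ (fun a ha => ⟨r, hr, h, ha.2.1 r hr⟩) fun a ⟨r, hr, _, k⟩ => .inr (.inl ⟨r, hr, k⟩)⟩
  refine ⟨?_, s, hyp, fun χ ⟨r, hr, hr', h⟩ => ⟨memb_sph d χ, s _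
    (fun a ha => ⟨r, hr, by linarith [Real.pi_pos], h, ha.2.2 r hr hr'⟩)
    fun a ⟨r, hr, hr', _, k⟩ => .inr (.inr ⟨r, hr, hr', k⟩)⟩, fun r hr => ?_⟩
  · have := hyp (.eq (.num 0) (.num 0)) ⟨1, one_pos, by simp [Fm.Holds]⟩
    simpa [Fm.Holds] using this
  · obtain ⟨m, rfl⟩ : ∃ m, d = m + 2 := ⟨d - 2, by omega⟩
    exact ⟨memb_euc _ hr, s _ (fun a ha => ha.1 r hr) fun a k => .inl ⟨r, hr, k⟩⟩

end Pool.Agent.Results.MP_485bb6_lc.SpaceForms
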